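import Pool.Agent.Helper44.CM.StmtsB5
import Pool.Agent.Helper72.CM.Inv

/-!
# Project MM, block B5, row HBLD: the remainder of `log det` is quadratic, in difference form
-/

open MeasureTheory

namespace CM89

open CM CM72 Matrix

variable {n : ℕ}

/-- Derivative of `log det` along a curve of matrices. -/
theorem hasDerivAt_logdet (M : ℝ → Mt n) (M' : Mt n) (t : ℝ)
    (h : ∀ a b, HasDerivAt (fun s => M s a b) (M' a b) t) (h0 : (M t).det ≠ 0) :
    HasDerivAt (fun s => Real.log (M s).det) (∑ a, ∑ b, M' a b * (M t)⁻¹ b a) t := by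
  have h1 : HasDerivAt (fun s => (fun a b => M s a b : Fin n → Fin n → ℝ))
      (fun a b => M' a b) t := by
    rw [hasDerivAt_pi]
    intro a
    rw [hasDerivAt_pi]
    intro b
    exact h a b
  have h2 := (((detC n).hasFDerivAt (x := fun a b => M t a b)).comp_hasDerivAt t h1)
  have h3 : (detC n) ∘ (fun s => (fun a b => M s a b : Fin n → Fin n → ℝ))
      = fun s => (M s).det := by
    funext s
    rfl
  rw [h3] at h2
  have h4 := h2.log h0
  have h5 : (((detC n).linearDeriv fun a b => M t a b) fun a b => M' a b) / (M t).det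
      = ∑ a, ∑ b, M' a b * (M t)⁻¹ b a := by
    rw [ContinuousMultilinearMap.linearDeriv_apply, Finset.sum_div]
    refine Finset.sum_congr rfl fun a _ => ?_
    have h6 := det_update (M t) (fun b => M' a b) a
    have h7 : (detC n) (Function.update (fun a b => M t a b) a (fun b => M' a b))
        = ((M t).updateRow a fun b => M' a b).det := rfl
    rw [h7, h6, Finset.sum_div]
    refine Finset.sum_congr rfl fun b _ => ?_
    rw [Matrix.inv_def, Matrix.smul_apply, Ring.inverse_eq_inv', smul_eq_mul]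
    ring
  rw [← h5]
  exact h4

/-- Lower bound after a small perturbation. -/
theorem LB_perturb {c e : ℝ} {G B : Mt n} (hG : LB c G) (hB : ∀ i j, |B i j| ≤ e)
    (he : n * e ≤ c / 2) : LB (c / 2) (G + B) := by
  have h1 : UB (n * e) (-B) := UB_of_entries fun i j => by
    rw [Matrix.neg_apply, abs_neg]
    exact hB i j
  intro v
  have h2 := hG v
  have h3 := h1 v
  have h4 : ∑ i, ∑ j, v i * (G + B) i j * v j
      = ∑ i, ∑ j, v i * G i j * v j - ∑ i, ∑ j, v i * (-B) i j * v j := by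
    simp only [← Finset.sum_sub_distrib]
    refine Finset.sum_congr rfl fun i _ => Finset.sum_congr rfl fun j _ => ?_
    rw [Matrix.add_apply, Matrix.neg_apply]
    ring
  have h5 : 0 ≤ ∑ i, v i ^ 2 := Finset.sum_nonneg fun i _ => sq_nonneg (v i)
  have h6 : (n * e) * ∑ i, v i ^ 2 ≤ (c / 2) * ∑ i, v i ^ 2 := mul_le_mul_of_nonneg_right he h5
  rw [h4]
  linarith

/-- The class `H0` of a difference `F 1 - F 0` from the `θ`-derivative. -/
theorem H0_of_deriv {K : ℝ} {F F' : ℝ → E n → ℝ}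
    (hd : ∀ θ ∈ Set.Icc (0 : ℝ) 1, ∀ x, HasDerivAt (fun s => F s x) (F' θ x) θ)
    (hb : ∀ θ ∈ Set.Icc (0 : ℝ) 1, H0 K (F' θ)) : H0 K (fun x => F 1 x - F 0 x) := by
  constructor
  · intro x
    have h1 := norm_image_sub_le_of_norm_deriv_le_segment_01' (f := fun s => F s x)
      (f' := fun θ => F' θ x) (C := K) (fun θ hθ => (hd θ hθ x).hasDerivWithinAt)
      (fun θ hθ => (hb θ ⟨hθ.1, hθ.2.le⟩).1 x)
    exact h1
  · intro x y
    have h1 := norm_image_sub_le_of_norm_deriv_le_segment_01' (f := fun s => F s x - F s y)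
      (f' := fun θ => F' θ x - F' θ y) (C := K * Real.sqrt (dist x y))
      (fun θ hθ => ((hd θ hθ x).sub (hd θ hθ y)).hasDerivWithinAt)
      (fun θ hθ => (hb θ ⟨hθ.1, hθ.2.le⟩).2 x y)
    have h2 : F 1 x - F 0 x - (F 1 y - F 0 y) = F 1 x - F 1 y - (F 0 x - F 0 y) := by ring
    rw [h2]
    exact h1

/-- Product of two entries, summed over all entries. -/
theorem HB_dsum {k : ℕ} {a b : ℝ} {f g : Fin n → Fin n → E n → ℝ}
    (hf : ∀ i j, HB k a (f i j)) (hg : ∀ i j, HB k b (g i j)) :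
    HB k (n * n * 2 ^ (k + 1) * (a * b)) (fun x => ∑ i, ∑ j, f i j x * g i j x) := by
  have h : HB k (∑ _i : Fin n, ∑ _j : Fin n, 2 ^ (k + 1) * (a * b))
      (fun x => ∑ i, ∑ j, f i j x * g i j x) := by
    apply HB_sum
    intro i _
    apply HB_sum
    intro j _
    exact HB_mul (hf i j) (hg i j)
  refine HB_mono h (le_of_eq ?_)
  simp only [Finset.sum_const, Finset.card_univ, Fintype.card_fin, nsmul_eq_mul]
  ring

theorem contDiff_Rm {m : WithTop ℕ∞} {G B : E n → Mt n}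
    (hG : ∀ a b, ContDiff ℝ m (fun x => G x a b)) (hB : ∀ a b, ContDiff ℝ m (fun x => B x a b))
    (h0 : ∀ x, (G x).det ≠ 0) (h1 : ∀ x, (G x + B x).det ≠ 0) :
    ContDiff ℝ m (fun x => Rm (G x) (B x)) := by
  have h2 : ContDiff ℝ m (fun x => (G x + B x).det) := contDiff_det (M := fun x => G x + B x)
    fun a b => (hG a b).add (hB a b)
  unfold Rm tr2
  refine ((ContDiff.sum fun i _ => ContDiff.sum fun j _ => ?_).sub (h2.log h1)).add
    ((contDiff_det hG).log h0)
  exact (contDiff_minv hG h0 i j).mul (hB i j)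

/-- Derivative of the remainder. -/
theorem pd_Rm {G B : E n → Mt n} (hG : ∀ a b, ContDiff ℝ 1 (fun x => G x a b))
    (hB : ∀ a b, ContDiff ℝ 1 (fun x => B x a b))
    (h0 : ∀ x, (G x).det ≠ 0) (h1 : ∀ x, (G x + B x).det ≠ 0) (m : Fin n) (x : E n) :
    pd m (fun x => Rm (G x) (B x)) x
      = ∑ a, ∑ b, (pd m (fun y => (G y)⁻¹ a b) x * B x a b + (G x)⁻¹ a b * pd m (fun y => B y a b) x)
        - ∑ a, ∑ b, (pd m (fun y => G y a b) x + pd m (fun y => B y a b) x) * (G x + B x)⁻¹ b a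
        + ∑ a, ∑ b, pd m (fun y => G y a b) x * (G x)⁻¹ b a := by
  have hGd : ∀ a b, Differentiable ℝ (fun x => G x a b) := fun a b =>
    (hG a b).differentiable (by simp)
  have hBd : ∀ a b, Differentiable ℝ (fun x => B x a b) := fun a b =>
    (hB a b).differentiable (by simp)
  have hId : ∀ a b, Differentiable ℝ (fun x => (G x)⁻¹ a b) := fun a b =>
    (contDiff_minv hG h0 a b).differentiable (by simp)
  have hS : ∀ a b, DifferentiableAt ℝ (fun y => (G y + B y) a b) x := fun a b =>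
    (hGd a b x).add (hBd a b x)
  have hdet1 : DifferentiableAt ℝ (fun y => (G y + B y).det) x :=
    (contDiff_det (m := 1) (M := fun x => G x + B x)
      fun a b => (hG a b).add (hB a b)).differentiable (by simp) x
  have hdet0 : DifferentiableAt ℝ (fun y => (G y).det) x :=
    (contDiff_det (m := 1) hG).differentiable (by simp) x
  have hl1 : DifferentiableAt ℝ (fun y => Real.log (G y + B y).det) x := hdet1.log (h1 x)
  have hl0 : DifferentiableAt ℝ (fun y => Real.log (G y).det) x := hdet0.log (h0 x)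
  have ht : DifferentiableAt ℝ (fun y => tr2 (G y)⁻¹ (B y)) x := by
    unfold tr2
    exact DifferentiableAt.fun_sum fun i _ => DifferentiableAt.fun_sum fun j _ =>
      (hId i j x).mul (hBd i j x)
  have e1 : pd m (fun y => tr2 (G y)⁻¹ (B y)) x = ∑ a, ∑ b,
      (pd m (fun y => (G y)⁻¹ a b) x * B x a b + (G x)⁻¹ a b * pd m (fun y => B y a b) x) := by
    unfold tr2
    rw [pd_sum_at (f := fun i y => ∑ j, (G y)⁻¹ i j * B y i j) Finset.univ fun i _ =>
      DifferentiableAt.fun_sum fun j _ => (hId i j x).mul (hBd i j x)]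
    refine Finset.sum_congr rfl fun a _ => ?_
    rw [pd_sum_at (f := fun j y => (G y)⁻¹ a j * B y a j) Finset.univ fun j _ =>
      (hId a j x).mul (hBd a j x)]
    exact Finset.sum_congr rfl fun b _ => pd_mul_at (hId a b x) (hBd a b x) m
  have e2 : pd m (fun y => Real.log (G y + B y).det) x = ∑ a, ∑ b,
      (pd m (fun y => G y a b) x + pd m (fun y => B y a b) x) * (G x + B x)⁻¹ b a := by
    rw [pd_logdet_at (M := fun y => G y + B y) hS (h1 x)]
    refine Finset.sum_congr rfl fun a _ => Finset.sum_congr rfl fun b _ => ?_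
    have : pd m (fun y => (G y + B y) a b) x
        = pd m (fun y => G y a b) x + pd m (fun y => B y a b) x :=
      pd_add_at (hGd a b x) (hBd a b x) m
    rw [this]
  have e3 := pd_logdet_at (M := G) (fun a b => hGd a b x) (h0 x) m
  have e4 : pd m (fun x => Rm (G x) (B x)) x
      = pd m (fun y => tr2 (G y)⁻¹ (B y)) x - pd m (fun y => Real.log (G y + B y).det) x
        + pd m (fun y => Real.log (G y).det) x := by
    unfold Rm
    rw [pd_add_at (f := fun y => tr2 (G y)⁻¹ (B y) - Real.log (G y + B y).det) (ht.sub hl1) hl0,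
      pd_sub_at ht hl1]
  rw [e4, e1, e2, e3]

/-- Contraction as a trace. -/
theorem sum2_eq_trace (X Y : Mt n) : ∑ a, ∑ b, X a b * Y a b = (X * Yᵀ).trace := by
  simp only [Matrix.trace, Matrix.diag_apply, Matrix.mul_apply, Matrix.transpose_apply]

theorem sum2_sandwich {T : Mt n} (hT : T.IsSymm) (Q D : Mt n) :
    ∑ a, ∑ b, (T * Q * T) a b * D a b = ∑ a, ∑ b, Q a b * (T * D * T) a b := by
  rw [sum2_eq_trace, sum2_eq_trace, Matrix.transpose_mul, Matrix.transpose_mul, hT.eq,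
    Matrix.mul_assoc T Q T, Matrix.mul_assoc T (Q * T) Dᵀ, Matrix.trace_mul_comm]
  simp only [Matrix.mul_assoc]

/-- The algebraic identity behind the derivative of a difference of remainders. -/
theorem alg_id (T0 T1 T2 B B' P P' Q : Mt n) (s0 : T0.IsSymm) (s1 : T1.IsSymm) (s2 : T2.IsSymm)
    (h12 : T1 - T2 = - (T1 * (B - B') * T2)) :
    (∑ a, ∑ b, ((-(T0 * Q * T0)) a b * B a b + T0 a b * P a b)
        - ∑ a, ∑ b, (Q a b + P a b) * T1 b a + ∑ a, ∑ b, Q a b * T0 b a)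
      - (∑ a, ∑ b, ((-(T0 * Q * T0)) a b * B' a b + T0 a b * P' a b)
        - ∑ a, ∑ b, (Q a b + P' a b) * T2 b a + ∑ a, ∑ b, Q a b * T0 b a)
      = (∑ a, ∑ b, (T0 a b - T1 a b) * (P a b - P' a b)
        - ∑ a, ∑ b, (T1 a b - T2 a b) * P' a b)
        + ∑ a, ∑ b, Q a b * (∑ d, ∑ e, (T1 a e - T0 a e) * (B e d - B' e d) * T2 d b
            + ∑ d, ∑ e, T0 a e * (B e d - B' e d) * (T2 d b - T0 d b)) := by
  have t1 : ∀ a b, T1 b a = T1 a b := fun a b => s1.apply a b
  have t2 : ∀ a b, T2 b a = T2 a b := fun a b => s2.apply a b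
  have k1 : ∀ a b, ∑ d, ∑ e, (T1 a e - T0 a e) * (B e d - B' e d) * T2 d b
      = ((T1 - T0) * (B - B') * T2) a b := by
    intro a b
    simp only [Matrix.mul_apply, Matrix.sub_apply, Finset.sum_mul]
  have k2 : ∀ a b, ∑ d, ∑ e, T0 a e * (B e d - B' e d) * (T2 d b - T0 d b)
      = (T0 * (B - B') * (T2 - T0)) a b := by
    intro a b
    simp only [Matrix.mul_apply, Matrix.sub_apply, Finset.sum_mul]
  have k3 : ∀ a b, ((T1 - T0) * (B - B') * T2) a b + (T0 * (B - B') * (T2 - T0)) a b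
      = - (T1 a b - T2 a b) - (T0 * (B - B') * T0) a b := by
    intro a b
    have e1 : (T1 - T0) * (B - B') * T2 + T0 * (B - B') * (T2 - T0)
        = - (T1 - T2) - T0 * (B - B') * T0 := by
      rw [h12, neg_neg]
      simp only [Matrix.sub_mul, Matrix.mul_sub]
      abel
    have e2 := congrFun (congrFun e1 a) b
    simpa only [Matrix.add_apply, Matrix.sub_apply, Matrix.neg_apply] using e2
  have k4 := sum2_sandwich s0 Q (B - B')
  simp only [k1, k2, k3]
  have e5 : ∑ a, ∑ b, Q a b * (- (T1 a b - T2 a b) - (T0 * (B - B') * T0) a b)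
      = - ∑ a, ∑ b, Q a b * (T1 a b - T2 a b) - ∑ a, ∑ b, (T0 * Q * T0) a b * (B - B') a b := by
    rw [k4, ← Finset.sum_neg_distrib, ← Finset.sum_sub_distrib]
    refine Finset.sum_congr rfl fun a _ => ?_
    rw [← Finset.sum_neg_distrib, ← Finset.sum_sub_distrib]
    exact Finset.sum_congr rfl fun b _ => by ring
  rw [e5]
  simp only [t1, t2, Matrix.neg_apply, Matrix.sub_apply, ← Finset.sum_sub_distrib,
    ← Finset.sum_add_distrib, ← Finset.sum_neg_distrib]
  refine Finset.sum_congr rfl fun a _ => Finset.sum_congr rfl fun b _ => ?_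
  ring

/-- Derivative of the remainder in a parameter. -/
theorem hasDerivAt_Rm {G B B' : Mt n} (sG : G.IsSymm) (sB : B.IsSymm) (sB' : B'.IsSymm) (θ : ℝ)
    (h0 : (G + (B' + θ • (B - B'))).det ≠ 0) :
    HasDerivAt (fun s => Rm G (B' + s • (B - B')))
      (∑ a, ∑ b, (G⁻¹ a b - (G + (B' + θ • (B - B')))⁻¹ a b) * (B a b - B' a b)) θ := by
  have hM : ∀ a b, HasDerivAt (fun s : ℝ => (B' + s • (B - B')) a b) (B a b - B' a b) θ := by
    intro a b
    have h1 : HasDerivAt (fun s : ℝ => B' a b + s * (B a b - B' a b)) (1 * (B a b - B' a b)) θ :=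
      ((hasDerivAt_id θ).mul_const _).const_add _
    rw [one_mul] at h1
    exact h1
  have hN : ∀ a b, HasDerivAt (fun s : ℝ => (G + (B' + s • (B - B'))) a b)
      ((B - B') a b) θ := fun a b => (hM a b).const_add (G a b)
  have h2 := hasDerivAt_logdet (fun s : ℝ => G + (B' + s • (B - B'))) (B - B') θ hN h0
  have h3 : HasDerivAt (fun s : ℝ => tr2 G⁻¹ (B' + s • (B - B')))
      (∑ a, ∑ b, G⁻¹ a b * (B a b - B' a b)) θ := by
    unfold tr2
    exact HasDerivAt.fun_sum fun a _ => HasDerivAt.fun_sum fun b _ => (hM a b).const_mul _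
  have h4 := (h3.sub h2).add_const (Real.log G.det)
  have hs : (G + (B' + θ • (B - B'))).IsSymm := sG.add (sB'.add ((sB.sub sB').smul θ))
  have h5 : ∑ a, ∑ b, (G⁻¹ a b - (G + (B' + θ • (B - B')))⁻¹ a b) * (B a b - B' a b)
      = ∑ a, ∑ b, G⁻¹ a b * (B a b - B' a b)
        - ∑ a, ∑ b, (B - B') a b * (G + (B' + θ • (B - B')))⁻¹ b a := by
    simp only [← Finset.sum_sub_distrib]
    refine Finset.sum_congr rfl fun a _ => Finset.sum_congr rfl fun b _ => ?_
    rw [(symm_inv hs).apply a b, Matrix.sub_apply]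
    ring
  rw [h5]
  exact h4

/-- Hypotheses of the row. -/
structure Hyp (k : ℕ) (c K : ℝ) (G B B' : E n → Mt n) (ε δ : ℝ) : Prop where
  c0 : 0 < c
  e0 : 0 ≤ ε
  d0 : 0 ≤ δ
  e1 : ε ≤ 1
  e2 : n * ε ≤ c / 2
  sG : ∀ x, (G x).IsSymm
  sB : ∀ x, (B x).IsSymm
  sB' : ∀ x, (B' x).IsSymm
  lb : ∀ x, LB c (G x)
  hG : ∀ i j, HB k K (fun x => G x i j)
  hB : ∀ i j, HB k ε (fun x => B x i j)
  hB' : ∀ i j, HB k ε (fun x => B' x i j)
  hD : ∀ i j, HB k δ (fun x => B x i j - B' x i j)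

theorem Hyp.down {k : ℕ} {c K : ℝ} {G B B' : E n → Mt n} {ε δ : ℝ}
    (h : Hyp (k + 1) c K G B B' ε δ) : Hyp k c K G B B' ε δ :=
  ⟨h.c0, h.e0, h.d0, h.e1, h.e2, h.sG, h.sB, h.sB', h.lb,
    fun i j => HB_of_le (h.hG i j) (Nat.le_succ k), fun i j => HB_of_le (h.hB i j) (Nat.le_succ k),
    fun i j => HB_of_le (h.hB' i j) (Nat.le_succ k), fun i j => HB_of_le (h.hD i j) (Nat.le_succ k)⟩

theorem Hyp.lbG {k : ℕ} {c K : ℝ} {G B B' : E n → Mt n} {ε δ : ℝ}
    (h : Hyp k c K G B B' ε δ) (x : E n) : LB (c / 2) (G x) :=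
  LB_mono (h.lb x) (by have := h.c0; linarith)

theorem Hyp.lbP {k : ℕ} {c K : ℝ} {G B B' : E n → Mt n} {ε δ : ℝ}
    (h : Hyp k c K G B B' ε δ) {P : E n → Mt n} (hP : ∀ i j, HB k ε (fun x => P x i j)) (x : E n) :
    LB (c / 2) (G x + P x) :=
  LB_perturb (h.lb x) (fun i j => (HB_H0 (hP i j)).1 x) h.e2

theorem Hyp.hGK {k : ℕ} {c K : ℝ} {G B B' : E n → Mt n} {ε δ : ℝ}
    (h : Hyp k c K G B B' ε δ) (i j : Fin n) : HB k (|K| + 1) (fun x => G x i j) :=
  HB_mono (h.hG i j) (by have := le_abs_self K; linarith)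

theorem Hyp.hPK {k : ℕ} {c K : ℝ} {G B B' : E n → Mt n} {ε δ : ℝ}
    (h : Hyp k c K G B B' ε δ) {P : E n → Mt n} (hP : ∀ i j, HB k ε (fun x => P x i j))
    (i j : Fin n) : HB k (|K| + 1) (fun x => (G x + P x) i j) :=
  HB_mono (HB_add (h.hG i j) (hP i j)) (by have := le_abs_self K; have := h.e1; linarith)

theorem HB_seg {k : ℕ} {ε θ : ℝ} {f g : E n → ℝ} (hf : HB k ε f) (hg : HB k ε g)
    (hθ : θ ∈ Set.Icc (0 : ℝ) 1) : HB k ε (fun x => g x + θ * (f x - g x)) := by
  have h1 := HB_add (HB_const_mul (1 - θ) hg) (HB_const_mul θ hf)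
  rw [abs_of_nonneg (by linarith [hθ.2] : (0 : ℝ) ≤ 1 - θ), abs_of_nonneg hθ.1] at h1
  exact HB_congr (HB_mono h1 (le_of_eq (by ring))) fun x => by ring

/-- Level zero. -/
theorem H0_part (n : ℕ) (c K : ℝ) (hc : 0 < c) : ∃ C : ℝ, 0 ≤ C ∧
    ∀ (G B B' : E n → Mt n) (ε δ : ℝ), Hyp 0 c K G B B' ε δ →
      H0 (C * ε * δ) (fun x => Rm (G x) (B x) - Rm (G x) (B' x)) := by
  obtain ⟨CD, hCD⟩ := st_HBINVD n 0 (c / 2) (|K| + 1) (by positivity)
  refine ⟨n * n * 2 ^ (0 + 1) * |CD|, by positivity, fun G B B' ε δ h => ?_⟩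
  set F : ℝ → E n → ℝ := fun s x => Rm (G x) (B' x + s • (B x - B' x)) with hF
  set F' : ℝ → E n → ℝ := fun θ x => ∑ a, ∑ b,
    ((G x)⁻¹ a b - (G x + (B' x + θ • (B x - B' x)))⁻¹ a b) * (B x a b - B' x a b) with hF'
  have hseg : ∀ θ ∈ Set.Icc (0 : ℝ) 1, ∀ i j,
      HB 0 ε (fun x => (B' x + θ • (B x - B' x)) i j) := fun θ hθ i j =>
    HB_seg (h.hB i j) (h.hB' i j) hθ
  have hd : ∀ θ ∈ Set.Icc (0 : ℝ) 1, ∀ x, HasDerivAt (fun s => F s x) (F' θ x) θ := by
    intro θ hθ x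
    exact hasDerivAt_Rm (h.sG x) (h.sB x) (h.sB' x) θ
      (det_ne_zero_of_LB (half_pos h.c0) (h.lbP (P := fun x => B' x + θ • (B x - B' x))
        (hseg θ hθ) x))
  have hb : ∀ θ ∈ Set.Icc (0 : ℝ) 1, H0 (n * n * 2 ^ (0 + 1) * |CD| * ε * δ) (F' θ) := by
    intro θ hθ
    have h1 := hCD G (fun x => G x + (B' x + θ • (B x - B' x))) ε h.lbG
      (h.lbP (P := fun x => B' x + θ • (B x - B' x)) (hseg θ hθ)) h.hGK
      (h.hPK (P := fun x => B' x + θ • (B x - B' x)) (hseg θ hθ))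
      (fun i j => HB_congr (HB_neg (hseg θ hθ i j)) fun x => by
        simp only [Matrix.add_apply]
        ring)
    have h2 : ∀ i j, HB 0 (|CD| * ε) (fun x => (G x)⁻¹ i j
        - (G x + (B' x + θ • (B x - B' x)))⁻¹ i j) := fun i j =>
      HB_mono (h1 i j) (mul_le_mul_of_nonneg_right (le_abs_self CD) h.e0)
    exact H0_mono (HB_H0 (HB_dsum h2 h.hD)) (le_of_eq (by ring))
  have h3 := H0_of_deriv hd hb
  refine H0_congr h3 fun x => ?_
  have e1 : F 1 x = Rm (G x) (B x) := by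
    have : B' x + (1 : ℝ) • (B x - B' x) = B x := by rw [one_smul]; abel
    simp only [hF, this]
  have e0 : F 0 x = Rm (G x) (B' x) := by
    have : B' x + (0 : ℝ) • (B x - B' x) = B' x := by rw [zero_smul, add_zero]
    simp only [hF, this]
  rw [e1, e0]

/-- The first derivatives. -/
theorem pd_part (n k : ℕ) (c K : ℝ) (hc : 0 < c) : ∃ C : ℝ, 0 ≤ C ∧
    ∀ (G B B' : E n → Mt n) (ε δ : ℝ), Hyp (k + 1) c K G B B' ε δ → ∀ m,
      HB k (C * ε * δ) (pd m (fun x => Rm (G x) (B x) - Rm (G x) (B' x))) := by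
  obtain ⟨CD, hCD⟩ := st_HBINVD n k (c / 2) (|K| + 1) (by positivity)
  obtain ⟨CI, hCI⟩ := st_HBINV n k (c / 2) (|K| + 1) (by positivity)
  set p : ℝ := 2 ^ (k + 1) with hp
  have hp0 : 0 < p := by positivity
  refine ⟨2 * (n * n * p * |CD|) + n * n * p * (|K| * (2 * (n * n * (p * p * (|CD| * |CI|))))),
    by positivity, fun G B B' ε δ h m => ?_⟩
  have hk := h.down
  have hc2 : 0 < c / 2 := half_pos hc
  have hK0 : ∀ i j, HB k |K| (pd m (fun y => G y i j)) := fun i j =>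
    HB_mono (HB_pd (h.hG i j) m) (le_abs_self K)
  have d0 : ∀ x, (G x).det ≠ 0 := fun x => det_ne_zero_of_LB hc2 (hk.lbG x)
  have d1 : ∀ x, (G x + B x).det ≠ 0 := fun x => det_ne_zero_of_LB hc2 (hk.lbP hk.hB x)
  have d2 : ∀ x, (G x + B' x).det ≠ 0 := fun x => det_ne_zero_of_LB hc2 (hk.lbP hk.hB' x)
  have i0 : ∀ i j, HB k |CI| (fun x => (G x)⁻¹ i j) := fun i j =>
    HB_mono (hCI G hk.lbG hk.hGK i j) (le_abs_self CI)
  have i2 : ∀ i j, HB k |CI| (fun x => (G x + B' x)⁻¹ i j) := fun i j =>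
    HB_mono (hCI (fun x => G x + B' x) (hk.lbP hk.hB') (hk.hPK hk.hB') i j) (le_abs_self CI)
  have j01 : ∀ i j, HB k (|CD| * ε) (fun x => (G x)⁻¹ i j - (G x + B x)⁻¹ i j) := fun i j =>
    HB_mono (hCD G (fun x => G x + B x) ε hk.lbG (hk.lbP hk.hB) hk.hGK (hk.hPK hk.hB)
      (fun i j => HB_congr (HB_neg (hk.hB i j)) fun x => by
        simp only [Matrix.add_apply]
        ring) i j) (mul_le_mul_of_nonneg_right (le_abs_self CD) h.e0)
  have j02 : ∀ i j, HB k (|CD| * ε) (fun x => (G x)⁻¹ i j - (G x + B' x)⁻¹ i j) := fun i j =>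
    HB_mono (hCD G (fun x => G x + B' x) ε hk.lbG (hk.lbP hk.hB') hk.hGK (hk.hPK hk.hB')
      (fun i j => HB_congr (HB_neg (hk.hB' i j)) fun x => by
        simp only [Matrix.add_apply]
        ring) i j) (mul_le_mul_of_nonneg_right (le_abs_self CD) h.e0)
  have j12 : ∀ i j, HB k (|CD| * δ) (fun x => (G x + B x)⁻¹ i j - (G x + B' x)⁻¹ i j) :=
    fun i j => HB_mono (hCD (fun x => G x + B x) (fun x => G x + B' x) δ (hk.lbP hk.hB)
      (hk.lbP hk.hB') (hk.hPK hk.hB) (hk.hPK hk.hB')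
      (fun i j => HB_congr (hk.hD i j) fun x => by
        simp only [Matrix.add_apply]
        ring) i j) (mul_le_mul_of_nonneg_right (le_abs_self CD) h.d0)
  have j10 : ∀ i j, HB k (|CD| * ε) (fun x => (G x + B x)⁻¹ i j - (G x)⁻¹ i j) := fun i j =>
    HB_congr (HB_neg (j01 i j)) fun x => by ring
  have j20 : ∀ i j, HB k (|CD| * ε) (fun x => (G x + B' x)⁻¹ i j - (G x)⁻¹ i j) := fun i j =>
    HB_congr (HB_neg (j02 i j)) fun x => by ring
  have hBd : ∀ i j, Differentiable ℝ (fun x => B x i j) := fun i j => HB_differentiable (h.hB i j)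
  have hBd' : ∀ i j, Differentiable ℝ (fun x => B' x i j) := fun i j =>
    HB_differentiable (h.hB' i j)
  have hP : ∀ i j, HB k δ (fun x => pd m (fun y => B y i j) x - pd m (fun y => B' y i j) x) := by
    intro i j
    have h1 := HB_pd (h.hD i j) m
    rw [pd_sub (hBd i j) (hBd' i j)] at h1
    exact h1
  have hP' : ∀ i j, HB k ε (fun x => pd m (fun y => B' y i j) x) := fun i j => HB_pd (h.hB' i j) m
  have one : ∀ {f : E n → ℝ} {A : ℝ}, HB (k + 1) A f → ContDiff ℝ 1 f := fun hf =>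
    hf.1.of_le (by norm_cast; omega)
  -- the inner sums
  have s1 : ∀ a b, HB k (n * n * (p * (p * ((|CD| * ε) * δ) * |CI|))) (fun x => ∑ d, ∑ e,
      ((G x + B x)⁻¹ a e - (G x)⁻¹ a e) * (B x e d - B' x e d) * (G x + B' x)⁻¹ d b) := by
    intro a b
    have h1 : HB k (∑ _d : Fin n, ∑ _e : Fin n, p * (p * ((|CD| * ε) * δ) * |CI|))
        (fun x => ∑ d, ∑ e,
      ((G x + B x)⁻¹ a e - (G x)⁻¹ a e) * (B x e d - B' x e d) * (G x + B' x)⁻¹ d b) := by
      apply HB_sum
      intro d _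
      apply HB_sum
      intro e _
      exact HB_triple (j10 a e) (hk.hD e d) (i2 d b)
    refine HB_mono h1 (le_of_eq ?_)
    simp only [Finset.sum_const, Finset.card_univ, Fintype.card_fin, nsmul_eq_mul]
    ring
  have s2 : ∀ a b, HB k (n * n * (p * (p * (|CI| * δ) * (|CD| * ε)))) (fun x => ∑ d, ∑ e,
      (G x)⁻¹ a e * (B x e d - B' x e d) * ((G x + B' x)⁻¹ d b - (G x)⁻¹ d b)) := by
    intro a b
    have h1 : HB k (∑ _d : Fin n, ∑ _e : Fin n, p * (p * (|CI| * δ) * (|CD| * ε)))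
        (fun x => ∑ d, ∑ e,
      (G x)⁻¹ a e * (B x e d - B' x e d) * ((G x + B' x)⁻¹ d b - (G x)⁻¹ d b)) := by
      apply HB_sum
      intro d _
      apply HB_sum
      intro e _
      exact HB_triple (i0 a e) (hk.hD e d) (j20 d b)
    refine HB_mono h1 (le_of_eq ?_)
    simp only [Finset.sum_const, Finset.card_univ, Fintype.card_fin, nsmul_eq_mul]
    ring
  have r1 := HB_sub (HB_dsum j01 hP) (HB_dsum j12 hP')
  have r2 := HB_dsum hK0 (fun a b => HB_add (s1 a b) (s2 a b))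
  have r3 := HB_add r1 r2
  refine HB_congr (HB_mono r3 (le_of_eq ?_)) fun x => ?_
  · ring
  · have q1 : pd m (fun x => Rm (G x) (B x) - Rm (G x) (B' x)) x
        = pd m (fun x => Rm (G x) (B x)) x - pd m (fun x => Rm (G x) (B' x)) x := by
      apply pd_sub_at
      · exact (contDiff_Rm (m := 1) (fun a b => one (h.hG a b)) (fun a b => one (h.hB a b))
          d0 d1).differentiable (by simp) x
      · exact (contDiff_Rm (m := 1) (fun a b => one (h.hG a b)) (fun a b => one (h.hB' a b))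
          d0 d2).differentiable (by simp) x
    rw [q1, pd_Rm (fun a b => one (h.hG a b)) (fun a b => one (h.hB a b)) d0 d1 m x,
      pd_Rm (fun a b => one (h.hG a b)) (fun a b => one (h.hB' a b)) d0 d2 m x]
    have q2 := alg_id (G x)⁻¹ (G x + B x)⁻¹ (G x + B' x)⁻¹ (B x) (B' x)
      (Matrix.of fun a b => pd m (fun y => B y a b) x)
      (Matrix.of fun a b => pd m (fun y => B' y a b) x)
      (Matrix.of fun a b => pd m (fun y => G y a b) x) (symm_inv (h.sG x))
      (symm_inv ((h.sG x).add (h.sB x))) (symm_inv ((h.sG x).add (h.sB' x))) ?_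
    · have q3 : ∀ a b, (-((G x)⁻¹ * (Matrix.of fun a b => pd m (fun y => G y a b) x)
          * (G x)⁻¹)) a b = pd m (fun y => (G y)⁻¹ a b) x := by
        intro a b
        rw [pd_minv (fun a b => one (h.hG a b)) d0 m a b x, Matrix.neg_apply]
        simp only [Matrix.mul_apply, Finset.sum_mul, Matrix.of_apply]
      simp only [q3, Matrix.of_apply] at q2
      exact q2.symm
    · rw [inv_sub_inv (d1 x).isUnit (d2 x).isUnit]
      have : G x + B' x - (G x + B x) = - (B x - B' x) := by abel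
      rw [this, Matrix.mul_neg, Matrix.neg_mul]

/-- Row HBLD without hypotheses. -/
theorem st_HBLD' : ST_HBLD := by
  intro n k c K hc
  rcases Nat.eq_zero_or_pos n with hn | hn
  · subst hn
    refine ⟨0, 1, one_pos, ?_⟩
    intro G B B' ε δ _ _ _ _ _ _ _ _ _
    refine HB_congr (HB_const k 0 (by simp)) fun x => ?_
    unfold Rm tr2
    simp
  · have key : ∃ C : ℝ, ∀ (G B B' : E n → Mt n) (ε δ : ℝ), Hyp k c K G B B' ε δ →
        HB k (C * ε * δ) (fun x => Rm (G x) (B x) - Rm (G x) (B' x)) := by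
      rcases k with _ | k
      · obtain ⟨C, _, hC⟩ := H0_part n c K hc
        refine ⟨C, fun G B B' ε δ h => HB_zero_iff.2 ⟨?_, hC G B B' ε δ h⟩⟩
        have hc2 : 0 < c / 2 := half_pos hc
        have d0 : ∀ x, (G x).det ≠ 0 := fun x => det_ne_zero_of_LB hc2 (h.lbG x)
        have d1 : ∀ x, (G x + B x).det ≠ 0 := fun x => det_ne_zero_of_LB hc2 (h.lbP h.hB x)
        have d2 : ∀ x, (G x + B' x).det ≠ 0 := fun x => det_ne_zero_of_LB hc2 (h.lbP h.hB' x)
        exact (contDiff_Rm (fun a b => (h.hG a b).1) (fun a b => (h.hB a b).1) d0 d1).continuous.sub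
          (contDiff_Rm (fun a b => (h.hG a b).1) (fun a b => (h.hB' a b).1) d0 d2).continuous
      · obtain ⟨C1, hC1, h1⟩ := H0_part n c K hc
        obtain ⟨C2, hC2, h2⟩ := pd_part n k c K hc
        refine ⟨C1 + C2, fun G B B' ε δ h => HB_succ_iff.2 ⟨?_, ?_, fun m => ?_⟩⟩
        · have hc2 : 0 < c / 2 := half_pos hc
          have d0 : ∀ x, (G x).det ≠ 0 := fun x => det_ne_zero_of_LB hc2 (h.lbG x)
          have d1 : ∀ x, (G x + B x).det ≠ 0 := fun x => det_ne_zero_of_LB hc2 (h.lbP h.hB x)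
          have d2 : ∀ x, (G x + B' x).det ≠ 0 := fun x => det_ne_zero_of_LB hc2 (h.lbP h.hB' x)
          exact (contDiff_Rm (fun a b => (h.hG a b).1) (fun a b => (h.hB a b).1) d0 d1).sub
            (contDiff_Rm (fun a b => (h.hG a b).1) (fun a b => (h.hB' a b).1) d0 d2)
        · have h0 : Hyp 0 c K G B B' ε δ := ⟨h.c0, h.e0, h.d0, h.e1, h.e2, h.sG, h.sB, h.sB', h.lb,
            fun i j => HB_of_le (h.hG i j) (Nat.zero_le _),
            fun i j => HB_of_le (h.hB i j) (Nat.zero_le _),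
            fun i j => HB_of_le (h.hB' i j) (Nat.zero_le _),
            fun i j => HB_of_le (h.hD i j) (Nat.zero_le _)⟩
          refine H0_mono (h1 G B B' ε δ h0) ?_
          have := mul_nonneg (mul_nonneg hC2 h.e0) h.d0
          linarith
        · refine HB_mono (h2 G B B' ε δ h m) ?_
          have := mul_nonneg (mul_nonneg hC1 h.e0) h.d0
          linarith
    obtain ⟨C, hC⟩ := key
    have hn0 : (0 : ℝ) < n := by exact_mod_cast hn
    refine ⟨C, min 1 (c / 2 / n), by positivity, ?_⟩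
    intro G B B' ε δ hε sG sB sB' hlb hG hB hB' hD
    refine hC G B B' ε δ ⟨hc, HB_nonneg (hB ⟨0, hn⟩ ⟨0, hn⟩), HB_nonneg (hD ⟨0, hn⟩ ⟨0, hn⟩),
      hε.trans (min_le_left _ _), ?_, sG, sB, sB', hlb, hG, hB, hB', hD⟩
    have h1 : ε ≤ c / 2 / n := hε.trans (min_le_right _ _)
    rw [le_div_iff₀ hn0] at h1
    linarith

end CM89

namespace CM

/-- Row HBLD. -/
theorem st_HBLD (_ : ST_HBALG) (_ : ST_HBSUM) (_ : ST_HBINV) (_ : ST_HBINVD) : ST_HBLD :=
  CM89.st_HBLD'

end CM
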